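import Pool.Agent.H933.EP.Stm
import Pool.Agent.H686.LL.Gloc

/-!
# P_gch: chains near Hölder graphs with general decreasing weights (helper650, after helper295 and helper686)
-/

set_option autoImplicit false

open MeasureTheory Metric
open scoped Real ENNReal

namespace Pool.Agent.H650.EP

open Pool.Agent.H933.LL Pool.Agent.H933.EP Pool.Agent.H295.LL.GraphAux Pool.Agent.H686.LL.GlocAux

namespace GchAux

/-- the density of the potential -/
noncomputable def fn (w : ℝ → ℝ) (c p τ : ℝ) : ℝ :=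
  if 0 < τ then (1 + w (c * τ ^ p)) * τ ^ (-p) else 0

section fn

variable {w : ℝ → ℝ} {c p : ℝ}

theorem fn_pos_eq {τ : ℝ} (h : 0 < τ) : fn w c p τ = (1 + w (c * τ ^ p)) * τ ^ (-p) := if_pos h

theorem fn_nonneg (hw0 : ∀ d, 0 ≤ w d) (τ : ℝ) : 0 ≤ fn w c p τ := by
  unfold fn
  split_ifs with h
  · have := hw0 (c * τ ^ p)
    positivity
  · exact le_rfl

theorem fn_anti (hw0 : ∀ d, 0 ≤ w d) (hw : ∀ d d' : ℝ, 0 < d → d ≤ d' → w d' ≤ w d) (hc : 0 < c)
    (hp : 0 < p) {s t : ℝ} (hs : 0 < s) (hst : s ≤ t) : fn w c p t ≤ fn w c p s := by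
  rw [fn_pos_eq hs, fn_pos_eq (hs.trans_le hst)]
  have h1 : w (c * t ^ p) ≤ w (c * s ^ p) := by
    refine hw _ _ (by positivity) ?_
    exact mul_le_mul_of_nonneg_left (Real.rpow_le_rpow hs.le hst hp.le) hc.le
  have h2 : t ^ (-p) ≤ s ^ (-p) := Real.rpow_le_rpow_of_nonpos hs hst (by linarith)
  have h3 := hw0 (c * s ^ p)
  have h4 : 0 ≤ t ^ (-p) := by
    have := hs.trans_le hst
    positivity
  exact mul_le_mul (by linarith) h2 h4 (by linarith)

theorem meas_of_anti {f : ℝ → ℝ} (h1 : ∀ s t : ℝ, 0 < s → s ≤ t → f t ≤ f s)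
    (h2 : ∀ s : ℝ, s ≤ 0 → f s = 0) : Measurable f := by
  refine measurable_of_restrict_of_restrict_compl (s := Set.Ioi (0 : ℝ)) measurableSet_Ioi ?_ ?_
  · have h3 : Antitone ((Set.Ioi (0 : ℝ)).domRestrict f) := fun a b hab => h1 a b a.2 hab
    exact h3.measurable
  · have h3 : (Set.Ioi (0 : ℝ))ᶜ.domRestrict f = fun _ => 0 := by
      funext x
      exact h2 x (not_lt.1 x.2)
    rw [h3]
    exact measurable_const

theorem fn_meas (hw0 : ∀ d, 0 ≤ w d) (hw : ∀ d d' : ℝ, 0 < d → d ≤ d' → w d' ≤ w d) (hc : 0 < c)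
    (hp : 0 < p) : Measurable (fn w c p) :=
  meas_of_anti (fun _ _ hs hst => fn_anti hw0 hw hc hp hs hst) fun _ hs => if_neg (not_lt.2 hs)

/-- the potential, as an extended number -/
noncomputable def Fe (w : ℝ → ℝ) (c p s : ℝ) : ℝ≥0∞ :=
  ∫⁻ τ in Set.Ioc (s / 2) 1, ENNReal.ofReal (fn w c p τ)

/-- the potential -/
noncomputable def Fn (w : ℝ → ℝ) (c p s : ℝ) : ℝ := if 0 < s then (Fe w c p s).toReal else 0

theorem Fn_pos_eq {s : ℝ} (h : 0 < s) : Fn w c p s = (Fe w c p s).toReal := if_pos h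

theorem Fn_nonneg (s : ℝ) : 0 ≤ Fn w c p s := by
  unfold Fn
  split_ifs with h
  · exact ENNReal.toReal_nonneg
  · exact le_rfl

theorem Fe_lt_top (hw0 : ∀ d, 0 ≤ w d) (hw : ∀ d d' : ℝ, 0 < d → d ≤ d' → w d' ≤ w d) (hc : 0 < c)
    (hp : 0 < p) {s : ℝ} (hs : 0 < s) : Fe w c p s < ⊤ := by
  have h1 : Fe w c p s ≤ ∫⁻ τ in Set.Ioc (s / 2) 1, ENNReal.ofReal (fn w c p (s / 2)) := by
    refine setLIntegral_mono' measurableSet_Ioc fun τ hτ => ?_
    exact ENNReal.ofReal_le_ofReal (fn_anti hw0 hw hc hp (by positivity) hτ.1.le)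
  refine h1.trans_lt ?_
  rw [setLIntegral_const, Real.volume_Ioc]
  exact ENNReal.mul_lt_top ENNReal.ofReal_lt_top ENNReal.ofReal_lt_top

theorem Fn_anti (hw0 : ∀ d, 0 ≤ w d) (hw : ∀ d d' : ℝ, 0 < d → d ≤ d' → w d' ≤ w d) (hc : 0 < c)
    (hp : 0 < p) {s t : ℝ} (hs : 0 < s) (hst : s ≤ t) : Fn w c p t ≤ Fn w c p s := by
  rw [Fn_pos_eq hs, Fn_pos_eq (hs.trans_le hst)]
  refine ENNReal.toReal_mono (Fe_lt_top hw0 hw hc hp hs).ne ?_
  exact lintegral_mono_set (Set.Ioc_subset_Ioc_left (by linarith))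

theorem Fn_meas (hw0 : ∀ d, 0 ≤ w d) (hw : ∀ d d' : ℝ, 0 < d → d ≤ d' → w d' ≤ w d) (hc : 0 < c)
    (hp : 0 < p) : Measurable (Fn w c p) :=
  meas_of_anti (fun _ _ hs hst => Fn_anti hw0 hw hc hp hs hst) fun _ hs => if_neg (not_lt.2 hs)

/-- the decrease of the potential -/
theorem Fn_step (hw0 : ∀ d, 0 ≤ w d) (hw : ∀ d d' : ℝ, 0 < d → d ≤ d' → w d' ≤ w d) (hc : 0 < c)
    (hp : 0 < p) {s t : ℝ} (hs : 0 < s) (hst : s ≤ t) (ht : t ≤ 2) :
    (t - s) / 2 * fn w c p (t / 2) ≤ Fn w c p s - Fn w c p t := by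
  have ht0 : 0 < t := hs.trans_le hst
  rw [Fn_pos_eq hs, Fn_pos_eq ht0]
  have h1 : Fe w c p s = (∫⁻ τ in Set.Ioc (s / 2) (t / 2), ENNReal.ofReal (fn w c p τ)) +
      Fe w c p t := by
    unfold Fe
    rw [← lintegral_union measurableSet_Ioc, Set.Ioc_union_Ioc_eq_Ioc (by linarith) (by linarith)]
    rw [Set.disjoint_left]
    intro x hx hx'
    exact absurd hx.2 (not_le.2 hx'.1)
  have h2 : ENNReal.ofReal ((t - s) / 2 * fn w c p (t / 2)) ≤
      ∫⁻ τ in Set.Ioc (s / 2) (t / 2), ENNReal.ofReal (fn w c p τ) := by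
    have h3 : ENNReal.ofReal ((t - s) / 2 * fn w c p (t / 2)) =
        ∫⁻ τ in Set.Ioc (s / 2) (t / 2), ENNReal.ofReal (fn w c p (t / 2)) := by
      rw [setLIntegral_const, Real.volume_Ioc, mul_comm, ENNReal.ofReal_mul (fn_nonneg hw0 _)]
      congr 2
      ring
    rw [h3]
    refine setLIntegral_mono' measurableSet_Ioc fun τ hτ => ?_
    exact ENNReal.ofReal_le_ofReal
      (fn_anti hw0 hw hc hp (lt_trans (by positivity : 0 < s / 2) hτ.1) hτ.2)
  have hfin := Fe_lt_top hw0 hw hc hp hs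
  rw [h1] at hfin
  have hA := (ENNReal.add_lt_top.1 hfin).1
  have hB := (ENNReal.add_lt_top.1 hfin).2
  rw [h1, ENNReal.toReal_add hA.ne hB.ne, add_sub_cancel_right]
  exact (ENNReal.ofReal_le_iff_le_toReal hA.ne).1 h2

/-- the potential is integrable -/
theorem Fe_int (hw0 : ∀ d, 0 ≤ w d) (hw : ∀ d d' : ℝ, 0 < d → d ≤ d' → w d' ≤ w d) (hc : 0 < c)
    (hp : 0 < p) (hp2 : p < 2)
    (hi : IntegrableOn (fun t : ℝ => w (c * t ^ p) * t ^ (1 - p)) (Set.Ioc 0 1)) :
    ∫⁻ s in Set.Ioc (0 : ℝ) 1, Fe w c p (s / 2) < ⊤ := by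
  have hm := fn_meas (w := w) (c := c) (p := p) hw0 hw hc hp
  let Kf : ℝ → ℝ → ℝ≥0∞ := fun s τ =>
    {x : ℝ × ℝ | x.1 < 4 * x.2}.indicator (fun x => ENNReal.ofReal (fn w c p x.2)) (s, τ)
  have hset : MeasurableSet {x : ℝ × ℝ | x.1 < 4 * x.2} :=
    measurableSet_lt measurable_fst (measurable_snd.const_mul 4)
  have hKm : Measurable (Function.uncurry Kf) := by
    have h1 : Function.uncurry Kf =
        {x : ℝ × ℝ | x.1 < 4 * x.2}.indicator (fun x => ENNReal.ofReal (fn w c p x.2)) := by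
      funext x
      rfl
    rw [h1]
    exact ((hm.comp measurable_snd).ennreal_ofReal).indicator hset
  have h1 : ∫⁻ s in Set.Ioc (0 : ℝ) 1, Fe w c p (s / 2) ≤
      ∫⁻ s in Set.Ioc (0 : ℝ) 1, ∫⁻ τ in Set.Ioc (0 : ℝ) 1, Kf s τ := by
    refine setLIntegral_mono' measurableSet_Ioc fun s hs => ?_
    unfold Fe
    rw [← lintegral_indicator measurableSet_Ioc, ← lintegral_indicator measurableSet_Ioc]
    refine lintegral_mono fun τ => ?_
    by_cases hτ : τ ∈ Set.Ioc (s / 2 / 2) 1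
    · rw [Set.indicator_of_mem hτ]
      have h2 : τ ∈ Set.Ioc (0 : ℝ) 1 := ⟨by linarith [hτ.1, hs.1], hτ.2⟩
      rw [Set.indicator_of_mem h2]
      have h3 : (s, τ) ∈ {x : ℝ × ℝ | x.1 < 4 * x.2} := by
        show s < 4 * τ
        linarith [hτ.1]
      show _ ≤ {x : ℝ × ℝ | x.1 < 4 * x.2}.indicator (fun x => ENNReal.ofReal (fn w c p x.2)) (s, τ)
      rw [Set.indicator_of_mem h3]
    · rw [Set.indicator_of_notMem hτ]
      exact bot_le
  refine h1.trans_lt ?_
  rw [lintegral_lintegral_swap hKm.aemeasurable]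
  have h2 : ∫⁻ τ in Set.Ioc (0 : ℝ) 1, ∫⁻ s in Set.Ioc (0 : ℝ) 1, Kf s τ ≤
      ∫⁻ τ in Set.Ioc (0 : ℝ) 1, ENNReal.ofReal (4 * (w (c * τ ^ p) * τ ^ (1 - p) + τ ^ (1 - p))) := by
    refine setLIntegral_mono' measurableSet_Ioc fun τ hτ => ?_
    have h3 : ∀ s, Kf s τ = (Set.Iio (4 * τ)).indicator (fun _ => ENNReal.ofReal (fn w c p τ)) s := by
      intro s
      by_cases hs : s < 4 * τ
      · have h4 : (s, τ) ∈ {x : ℝ × ℝ | x.1 < 4 * x.2} := hs
        have h5 : s ∈ Set.Iio (4 * τ) := hs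
        show {x : ℝ × ℝ | x.1 < 4 * x.2}.indicator (fun x => ENNReal.ofReal (fn w c p x.2)) (s, τ) = _
        rw [Set.indicator_of_mem h4, Set.indicator_of_mem h5]
      · have h4 : (s, τ) ∉ {x : ℝ × ℝ | x.1 < 4 * x.2} := hs
        have h5 : s ∉ Set.Iio (4 * τ) := hs
        show {x : ℝ × ℝ | x.1 < 4 * x.2}.indicator (fun x => ENNReal.ofReal (fn w c p x.2)) (s, τ) = _
        rw [Set.indicator_of_notMem h4, Set.indicator_of_notMem h5]
    simp only [h3]
    rw [lintegral_indicator measurableSet_Iio, lintegral_const, Measure.restrict_apply_univ]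
    have h4 : (volume.restrict (Set.Ioc (0 : ℝ) 1)) (Set.Iio (4 * τ)) ≤ ENNReal.ofReal (4 * τ) := by
      rw [Measure.restrict_apply measurableSet_Iio]
      refine (measure_mono (t := Set.Ioo (0 : ℝ) (4 * τ)) ?_).trans ?_
      · intro x hx
        exact ⟨hx.2.1, hx.1⟩
      · rw [Real.volume_Ioo, sub_zero]
    refine (mul_le_mul_right h4 _).trans ?_
    rw [← ENNReal.ofReal_mul (fn_nonneg hw0 _)]
    refine ENNReal.ofReal_le_ofReal (le_of_eq ?_)
    rw [fn_pos_eq hτ.1]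
    have h5 : τ ^ (1 - p) = τ ^ (-p) * τ := by
      rw [show (1 - p : ℝ) = -p + 1 by ring, Real.rpow_add hτ.1, Real.rpow_one]
    rw [h5]
    ring
  refine h2.trans_lt ?_
  have h3 : IntegrableOn (fun τ : ℝ => τ ^ (1 - p)) (Set.Ioc 0 1) :=
    (intervalIntegral.intervalIntegrable_rpow' (a := 0) (b := 1) (by linarith : -1 < 1 - p)).1
  have h4 : IntegrableOn (fun τ : ℝ => 4 * (w (c * τ ^ p) * τ ^ (1 - p) + τ ^ (1 - p)))
      (Set.Ioc 0 1) := (hi.add h3).const_mul 4
  have h5 := h4.2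
  refine lt_of_le_of_lt ?_ h5
  refine setLIntegral_mono' measurableSet_Ioc fun τ hτ => ?_
  rw [← ofReal_norm]
  exact ENNReal.ofReal_le_ofReal (Real.le_norm_self _)

end fn

/-! ### chains -/

/-- the cost at a distance at least `e` -/
theorem cost_mono {w : ℝ → ℝ} (hw : ∀ d d' : ℝ, 0 < d → d ≤ d' → w d' ≤ w d) {e d : ℝ}
    (he : 0 < e) (hd : e ≤ d) : w (min 1 (d / 2)) ≤ w (min 1 (e / 2)) := by
  refine hw _ _ (lt_min one_pos (by positivity)) ?_
  exact min_le_min_left _ (by linarith)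

/-- the base points -/
theorem exists_base {w : ℝ → ℝ} (hw : ∀ d d' : ℝ, 0 < d → d ≤ d' → w d' ≤ w d) {E S : Set ℂ}
    {e : ℝ} (hE : IsClosed E) (hEne : E.Nonempty)
    (hS : IsCompact S) (he : 0 < e) (hdS : ∀ z ∈ S, e ≤ infDist z E) :
    ∃ (B : Finset ℂ) (K : ℝ), (∀ b ∈ B, b ∉ E) ∧ ∀ z ∈ S, ReachW w E B z K := by
  obtain ⟨t, htS, htf, hcov⟩ := hS.finite_cover_balls (e := e / 4) (by positivity)
  refine ⟨htf.toFinset, 2 * (1 + w (min 1 (e / 2))), ?_, ?_⟩
  · intro b hb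
    have hbS := htS ((Set.Finite.mem_toFinset htf).1 hb)
    rw [hE.notMem_iff_infDist_pos hEne]
    exact he.trans_le (hdS b hbS)
  · intro z hzS
    obtain ⟨b, hb, hzb⟩ := Set.mem_iUnion₂.1 (hcov hzS)
    have h4 : ReachW w E htf.toFinset b (1 + w (min 1 (infDist b E / 2))) :=
      ReachW.base ((Set.Finite.mem_toFinset htf).2 hb)
    have h5 : ‖z - b‖ ≤ infDist b E / 4 := by
      rw [← dist_eq_norm]
      have h6 := hdS b (htS hb)
      have h7 := mem_ball.1 hzb
      linarith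
    refine (h4.step h5).mono ?_
    have h6 := cost_mono hw he (hdS b (htS hb))
    have h7 := cost_mono hw he (hdS z hzS)
    linarith

/-- the cost at the height `t` and the decrease of the potential -/
theorem cost_pot {w : ℝ → ℝ} (hw0 : ∀ d, 0 ≤ w d)
    (hw : ∀ d d' : ℝ, 0 < d → d ≤ d' → w d' ≤ w d) {L p c t d : ℝ} (hL : 0 ≤ L) (hp : 1 ≤ p)
    (hc : c = 1 / (2 * (1 + L) ^ p)) (ht : 0 < t) (ht1 : t ≤ 1 / 2) (hd : dl L p t ≤ d) :
    1 + w (min 1 (d / 2)) ≤
      8 * (1 + L) ^ p * (Fn w c p t - Fn w c p (t + dl L p t / 4)) := by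
  have hL1 : (0 : ℝ) < (1 + L) ^ p := by positivity
  have hc0 : 0 < c := by rw [hc]; positivity
  have hδ := dl_pos (p := p) hL ht
  have hδt : dl L p t ≤ t := (dl_le hL hp ht.le).trans (min_le_left _ _)
  have hδval : dl L p t = t ^ p / (1 + L) ^ p := by
    unfold dl
    rw [min_eq_left (by linarith), Real.div_rpow ht.le (by positivity)]
  have h1 := cost_mono hw hδ hd
  have h2 : min 1 (dl L p t / 2) = c * t ^ p := by
    rw [min_eq_right (by linarith), hδval, hc]
    field_simp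
  rw [h2] at h1
  have h3 := Fn_step (w := w) (c := c) (p := p) hw0 hw hc0 (by linarith) ht
    (by linarith : t ≤ t + dl L p t / 4) (by linarith)
  have h4 : fn w c p t ≤ fn w c p ((t + dl L p t / 4) / 2) :=
    fn_anti hw0 hw hc0 (by linarith) (by positivity) (by linarith)
  rw [fn_pos_eq ht] at h4
  have h5 : 8 * (1 + L) ^ p * ((t + dl L p t / 4 - t) / 2 * ((1 + w (c * t ^ p)) * t ^ (-p))) =
      1 + w (c * t ^ p) := by
    rw [add_sub_cancel_left, hδval, Real.rpow_neg ht.le]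
    have : (0 : ℝ) < t ^ p := by positivity
    field_simp
    ring
  calc 1 + w (min 1 (d / 2)) ≤ 1 + w (c * t ^ p) := by linarith
    _ = 8 * (1 + L) ^ p * ((t + dl L p t / 4 - t) / 2 * ((1 + w (c * t ^ p)) * t ^ (-p))) :=
        h5.symm
    _ ≤ 8 * (1 + L) ^ p * ((t + dl L p t / 4 - t) / 2 * fn w c p ((t + dl L p t / 4) / 2)) := by
        refine mul_le_mul_of_nonneg_left ?_ (by positivity)
        exact mul_le_mul_of_nonneg_left h4 (by rw [add_sub_cancel_left]; positivity)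
    _ ≤ _ := mul_le_mul_of_nonneg_left h3 (by positivity)

section main

variable {φ : ℝ → ℝ} {L α R : ℝ} {u l : ℂ} {E : Set ℂ}

/-- the chains -/
theorem chainsW {w : ℝ → ℝ} {c : ℝ} (hw0 : ∀ d, 0 ≤ w d)
    (hw : ∀ d d' : ℝ, 0 < d → d ≤ d' → w d' ≤ w d) (hL : 0 ≤ L) (hα : 0 < α) (hα1 : α ≤ 1)
    (hcv : c = 1 / (2 * (1 + L) ^ (1 / α)))
    (hφ : ∀ s t : ℝ, |φ s - φ t| ≤ L * |s - t| ^ α) (hEc : IsClosed E) (hEne : E.Nonempty)
    (hu : ‖u‖ = 1) (hR : 0 < R) (hE : ∀ z ∈ ball l R, z ∈ E ↔ (u * z).im = φ (u * z).re) :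
    Chains E Set.univ (ball l (R / 8)) w (fun z => Fn w c (1 / α) (min 1 (ht φ u z))) := by
  have hc := cont hα hφ
  set p := 1 / α with hp
  have hp1 : 1 ≤ p := by rw [hp, le_div_iff₀ hα]; linarith
  have hp0 : 0 < p := by linarith
  have hL1 : (0 : ℝ) < (1 + L) ^ p := by positivity
  have hc0 : 0 < c := by rw [hcv]; positivity
  set T := min (1 / 2) (R / 8) with hT
  have hT0 : 0 < T := lt_min (by norm_num) (by positivity)
  have hT1 : T ≤ 1 / 2 := min_le_left _ _
  have hT2 : T ≤ R / 8 := min_le_right _ _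
  set S : Set ℂ := closedBall l (3 * R / 8) ∩ {z : ℂ | T ≤ ht φ u z} with hS
  have hScomp : IsCompact S :=
    (isCompact_closedBall l _).inter_right (isClosed_le continuous_const (ht_cont hc))
  set e := dl L p T with he
  have he0 : 0 < e := dl_pos hL hT0
  have hdS : ∀ z ∈ S, e ≤ infDist z E := by
    intro z hz
    have h1 : ‖z - l‖ ≤ 3 * R / 8 := by
      rw [← dist_eq_norm]
      exact hz.1
    exact low hL hα hα1 hφ hEne hu hE h1 hT0.le hz.2 (by linarith)
  obtain ⟨B, K, hB, hK⟩ := exists_base hw hEc hEne hScomp he0 hdS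
  set C₅ := 8 * (1 + L) ^ p with hC₅
  have hC₅0 : 0 ≤ C₅ := by positivity
  have hu0 : u ≠ 0 := by
    intro h0
    rw [h0, norm_zero] at hu
    exact zero_ne_one hu
  refine ⟨B, max K C₅, fun b hb => ⟨Set.mem_univ _, hB b hb⟩, fun z hz hzE => ?_⟩
  have hzl : ‖z - l‖ < R / 8 := by
    rw [← dist_eq_norm]
    exact hz
  have hzR : z ∈ ball l R := by
    rw [mem_ball, dist_eq_norm]
    linarith
  have hne : (u * z).im - φ (u * z).re ≠ 0 := fun h0 => hzE ((hE z hzR).2 (sub_eq_zero.1 h0))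
  set h := ht φ u z with hh
  have hh0 : 0 < h := abs_pos.2 hne
  have hmax : 0 ≤ max K C₅ := hC₅0.trans (le_max_right _ _)
  have hg0 : 0 ≤ Fn w c p (min 1 h) := Fn_nonneg _
  suffices hsuff : ReachW w E B z (max K C₅ * (1 + Fn w c p (min 1 h))) by
    obtain ⟨N, c, h3, h4, h5, h6⟩ := hsuff
    exact ⟨N, c, h3, h4, h5, h6⟩
  rcases le_or_gt T h with hTh | hTh
  · refine (hK z ⟨?_, hTh⟩).mono ?_
    · rw [mem_closedBall, dist_eq_norm]
      linarith
    · have h1 : K ≤ max K C₅ := le_max_left _ _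
      have h2 : 0 ≤ max K C₅ * Fn w c p (min 1 h) := mul_nonneg hmax hg0
      linarith
  -- the vertical line
  obtain ⟨σ, hσ, hσh⟩ : ∃ σ : ℝ, |σ| = 1 ∧ (u * z).im - φ (u * z).re = σ * h := by
    rcases lt_or_gt_of_ne hne with h1 | h1
    · exact ⟨-1, by simp, by rw [hh, ht, abs_of_neg h1]; ring⟩
    · exact ⟨1, by simp, by rw [hh, ht, abs_of_pos h1]; ring⟩
  let v : ℝ → ℂ := fun t => u⁻¹ * ⟨(u * z).re, φ (u * z).re + σ * t⟩
  have hwu : ∀ t, u * v t = ⟨(u * z).re, φ (u * z).re + σ * t⟩ := fun t =>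
    mul_inv_cancel_left₀ hu0 _
  have hwh : ∀ t, 0 ≤ t → ht φ u (v t) = t := by
    intro t ht
    show |(u * v t).im - φ (u * v t).re| = t
    rw [hwu, add_sub_cancel_left, abs_mul, hσ, one_mul, abs_of_nonneg ht]
  have hwz : v h = z := by
    have h1 : u * v h = u * z := by
      rw [hwu]
      apply Complex.ext
      · rfl
      · show φ (u * z).re + σ * h = (u * z).im
        rw [← hσh]
        ring
    exact mul_left_cancel₀ hu0 h1
  have hwd : ∀ t t', ‖v t - v t'‖ = |t - t'| := by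
    intro t t'
    have h1 : ‖v t - v t'‖ = ‖u * v t - u * v t'‖ := by
      have h3 := norm_mul u (v t - v t')
      rw [hu, one_mul, mul_sub u (v t) (v t')] at h3
      exact h3.symm
    have h2 : u * v t - u * v t' = ((σ * (t - t') : ℝ) : ℂ) * Complex.I := by
      rw [hwu, hwu]
      apply Complex.ext
      · simp
      · simp
        ring
    rw [h1, h2, norm_mul, Complex.norm_I, mul_one, Complex.norm_real, Real.norm_eq_abs, abs_mul,
      hσ, one_mul]
  have hwl : ∀ t, h ≤ t → t ≤ 2 * T → ‖v t - l‖ ≤ 3 * R / 8 := by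
    intro t h1 h2
    have h3 : v t - l = (v t - v h) + (z - l) := by
      rw [hwz]
      ring
    rw [h3]
    refine (norm_add_le _ _).trans ?_
    rw [hwd, abs_of_nonneg (by linarith)]
    linarith
  have hwlow : ∀ t, h ≤ t → t ≤ 2 * T → dl L p t ≤ infDist (v t) E := by
    intro t h1 h2
    have h3 : 0 ≤ t := hh0.le.trans h1
    exact low hL hα hα1 hφ hEne hu hE (hwl t h1 h2) h3 (hwh t h3).ge (by linarith)
  -- the induction
  have hδ0 : 0 < dl L p h := dl_pos hL hh0
  have hbase : ∀ t, h ≤ t → t ≤ 2 * T → T ≤ t →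
      ReachW w E B (v t) (K + C₅ * Fn w c p t) := by
    intro t h1 h2 h3
    have ht0 : 0 < t := hh0.trans_le h1
    refine (hK (v t) ⟨?_, ?_⟩).mono ?_
    · rw [mem_closedBall, dist_eq_norm]
      exact hwl t h1 h2
    · show T ≤ ht φ u (v t)
      rw [hwh t ht0.le]
      exact h3
    · have : 0 ≤ C₅ * Fn w c p t := mul_nonneg hC₅0 (Fn_nonneg _)
      linarith
  have key : ∀ n : ℕ, ∀ t : ℝ, h ≤ t → t ≤ 2 * T → T - t ≤ n * (dl L p h / 4) →
      ReachW w E B (v t) (K + C₅ * Fn w c p t) := by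
    intro n
    induction n with
    | zero =>
      intro t h1 h2 h3
      refine hbase t h1 h2 ?_
      rw [Nat.cast_zero, zero_mul] at h3
      linarith
    | succ n ih =>
      intro t h1 h2 h3
      have ht0 : 0 < t := hh0.trans_le h1
      rcases le_or_gt T t with h4 | h4
      · exact hbase t h1 h2 h4
      · have hδt : 0 < dl L p t := dl_pos hL ht0
        have hδt1 : dl L p t ≤ t := (dl_le hL hp1 ht0.le).trans (min_le_left _ _)
        have hmono : dl L p h ≤ dl L p t := dl_mono hL hp0 hh0.le h1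
        have h5 := ih (t + dl L p t / 4) (by linarith) (by linarith) (by
          push_cast at h3
          linarith)
        have h6 : ‖v t - v (t + dl L p t / 4)‖ ≤ infDist (v (t + dl L p t / 4)) E / 4 := by
          rw [hwd]
          have h7 : t - (t + dl L p t / 4) = -(dl L p t / 4) := by ring
          rw [h7, abs_neg, abs_of_pos (by positivity)]
          have h8 : dl L p t ≤ dl L p (t + dl L p t / 4) := dl_mono hL hp0 ht0.le (by linarith)
          have h9 := hwlow (t + dl L p t / 4) (by linarith) (by linarith)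
          linarith
        refine (h5.step h6).mono ?_
        have h7 := cost_pot (c := c) hw0 hw hL hp1 hcv ht0 (by linarith)
          (hwlow t h1 (by linarith))
        rw [← hC₅, mul_sub] at h7
        linarith
  obtain ⟨n, hn⟩ := exists_nat_ge ((T - h) / (dl L p h / 4))
  have hfin := key n h le_rfl (by linarith) (by rwa [div_le_iff₀ (by positivity)] at hn)
  rw [hwz] at hfin
  refine hfin.mono ?_
  have h1 : min 1 h = h := min_eq_right (by linarith)
  rw [h1] at hg0 ⊢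
  have h3 : K ≤ max K C₅ := le_max_left _ _
  have h4 : C₅ ≤ max K C₅ := le_max_right _ _
  have h6 : C₅ * Fn w c p h ≤ max K C₅ * Fn w c p h := mul_le_mul_of_nonneg_right h4 hg0
  linarith

/-- the heights of near points -/
theorem ht_diff (hL : 0 ≤ L) (hα : 0 < α) (hφ : ∀ s t : ℝ, |φ s - φ t| ≤ L * |s - t| ^ α)
    (hu : ‖u‖ = 1) (z v : ℂ) : |ht φ u v - ht φ u z| ≤ ‖z - v‖ + L * ‖z - v‖ ^ α := by
  have h0 : ‖u * v - u * z‖ = ‖z - v‖ := by
    rw [← mul_sub, norm_mul, hu, one_mul, norm_sub_rev]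
  have h1 : |(u * v).im - (u * z).im| ≤ ‖z - v‖ := by
    rw [← Complex.sub_im, ← h0]
    exact Complex.abs_im_le_norm _
  have h2 : |(u * v).re - (u * z).re| ≤ ‖z - v‖ := by
    rw [← Complex.sub_re, ← h0]
    exact Complex.abs_re_le_norm _
  have h3 : |φ (u * v).re - φ (u * z).re| ≤ L * ‖z - v‖ ^ α :=
    (hφ _ _).trans (mul_le_mul_of_nonneg_left (Real.rpow_le_rpow (abs_nonneg _) h2 hα.le) hL)
  have h4 := abs_abs_sub_abs_le ((u * v).im - φ (u * v).re) ((u * z).im - φ (u * z).re)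
  have h5 : (u * v).im - φ (u * v).re - ((u * z).im - φ (u * z).re) =
      ((u * v).im - (u * z).im) - (φ (u * v).re - φ (u * z).re) := by ring
  rw [h5] at h4
  have h6 := abs_sub ((u * v).im - (u * z).im) (φ (u * v).re - φ (u * z).re)
  show abs (abs ((u * v).im - φ (u * v).re) - abs ((u * z).im - φ (u * z).re)) ≤ _
  linarith

/-- the heights of near points are comparable -/
theorem ht_comp {p c₃ : ℝ} (hL : 0 ≤ L) (hα : 0 < α) (hα1 : α ≤ 1) (hpα : p * α = 1)
    (hφ : ∀ s t : ℝ, |φ s - φ t| ≤ L * |s - t| ^ α) (hu : ‖u‖ = 1) (hc0 : 0 < c₃)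
    (hc1 : c₃ ≤ 1) (hc2 : (1 + L) * c₃ ^ α ≤ 1 / 2) {z v : ℂ} (hz : 0 < ht φ u z)
    (hv : ‖z - v‖ < c₃ * (min 1 (ht φ u z)) ^ p) :
    0 < ht φ u v ∧ min 1 (ht φ u v) ≤ 2 * min 1 (ht φ u z) ∧
      min 1 (ht φ u z) ≤ 2 * min 1 (ht φ u v) := by
  set h := ht φ u z with hh
  set m := min 1 h with hm
  have hm0 : 0 < m := lt_min one_pos hz
  have hm1 : m ≤ 1 := min_le_left _ _
  have hmh : m ≤ h := min_le_right _ _
  have hp1 : 1 ≤ p := by
    have hp0 : 0 < p := by
      by_contra hneg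
      have := mul_nonpos_of_nonpos_of_nonneg (not_lt.1 hneg) hα.le
      linarith
    nlinarith
  have h1 : ‖z - v‖ ^ α ≤ c₃ ^ α * m := by
    calc ‖z - v‖ ^ α ≤ (c₃ * m ^ p) ^ α := Real.rpow_le_rpow (norm_nonneg _) hv.le hα.le
      _ = c₃ ^ α * m := by
        rw [Real.mul_rpow hc0.le (by positivity), ← Real.rpow_mul hm0.le, hpα, Real.rpow_one]
  have h2 : c₃ ≤ c₃ ^ α := by
    calc c₃ = c₃ ^ (1 : ℝ) := (Real.rpow_one _).symm
      _ ≤ c₃ ^ α := Real.rpow_le_rpow_of_exponent_ge hc0 hc1 hα1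
  have h3 : m ^ p ≤ m := by
    calc m ^ p ≤ m ^ (1 : ℝ) := Real.rpow_le_rpow_of_exponent_ge hm0 hm1 hp1
      _ = m := Real.rpow_one _
  have h4 : ‖z - v‖ ≤ c₃ ^ α * m := hv.le.trans (mul_le_mul h2 h3 (by positivity) (by positivity))
  have h5 := ht_diff (φ := φ) hL hα hφ hu z v
  have h6 : |ht φ u v - h| ≤ m / 2 := by
    have h7 : L * ‖z - v‖ ^ α ≤ L * (c₃ ^ α * m) := mul_le_mul_of_nonneg_left h1 hL
    have h8 : (1 + L) * c₃ ^ α * m ≤ 1 / 2 * m := mul_le_mul_of_nonneg_right hc2 hm0.le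
    have h9 : (1 + L) * c₃ ^ α * m = c₃ ^ α * m + L * (c₃ ^ α * m) := by ring
    linarith
  obtain ⟨h7, h8⟩ := abs_le.1 h6
  refine ⟨by linarith, ?_, ?_⟩
  · rcases le_total h 1 with h9 | h9
    · have h10 : m = h := min_eq_right h9
      have h11 : min 1 (ht φ u v) ≤ ht φ u v := min_le_right _ _
      linarith
    · have h10 : m = 1 := min_eq_left h9
      have h11 : min 1 (ht φ u v) ≤ 1 := min_le_left _ _
      linarith
  · have h9 : m / 2 ≤ min 1 (ht φ u v) := le_min (by linarith) (by linarith)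
    linarith

end main

/-- the area of a neighbourhood of the graph in a disc -/
theorem strip {φ : ℝ → ℝ} (hc : Continuous φ) (z : ℂ) (r y : ℝ) (hr : 0 < r) (hy : 0 ≤ y) :
    volume {v : ℂ | v ∈ ball z r ∧ |v.im - φ v.re| ≤ y} ≤ ENNReal.ofReal (4 * r * y) := by
  let W : Set (ℝ × ℝ) := {x | (z.re - r < x.1 ∧ x.1 < z.re + r) ∧ |x.2 - φ x.1| ≤ y}
  have hW : MeasurableSet W := by
    have h1 : MeasurableSet {x : ℝ × ℝ | z.re - r < x.1 ∧ x.1 < z.re + r} :=
      (measurableSet_lt measurable_const measurable_fst).inter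
        (measurableSet_lt measurable_fst measurable_const)
    have h2 : MeasurableSet {x : ℝ × ℝ | |x.2 - φ x.1| ≤ y} :=
      (isClosed_le (continuous_abs.comp (continuous_snd.sub (hc.comp continuous_fst)))
        continuous_const).measurableSet
    exact h1.inter h2
  have h1 : {v : ℂ | v ∈ ball z r ∧ |v.im - φ v.re| ≤ y} ⊆ Complex.measurableEquivRealProd ⁻¹' W := by
    rintro v ⟨hv1, hv2⟩
    rw [mem_ball, Complex.dist_eq] at hv1
    have h2 := (Complex.abs_re_le_norm (v - z)).trans_lt hv1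
    rw [Complex.sub_re, abs_lt] at h2
    refine ⟨⟨?_, ?_⟩, ?_⟩
    · show z.re - r < v.re
      linarith [h2.1]
    · show v.re < z.re + r
      linarith [h2.2]
    · exact hv2
  refine (measure_mono h1).trans ?_
  rw [Complex.volume_preserving_equiv_real_prod.measure_preimage hW.nullMeasurableSet,
    Measure.volume_eq_prod, Measure.prod_apply hW]
  have h2 : ∀ x : ℝ, volume (Prod.mk x ⁻¹' W) ≤
      (Set.Ioo (z.re - r) (z.re + r)).indicator (fun _ => ENNReal.ofReal (2 * y)) x := by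
    intro x
    by_cases hx : x ∈ Set.Ioo (z.re - r) (z.re + r)
    · rw [Set.indicator_of_mem hx]
      have h3 : Prod.mk x ⁻¹' W ⊆ Set.Icc (φ x - y) (φ x + y) := by
        rintro t ⟨-, ht⟩
        have ht' : |t - φ x| ≤ y := ht
        rw [abs_le] at ht'
        exact ⟨by linarith [ht'.1], by linarith [ht'.2]⟩
      refine (measure_mono h3).trans ?_
      rw [Real.volume_Icc]
      exact ENNReal.ofReal_le_ofReal (by linarith)
    · rw [Set.indicator_of_notMem hx]
      have h3 : Prod.mk x ⁻¹' W = ∅ := by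
        rw [Set.eq_empty_iff_forall_notMem]
        rintro t ⟨ht, -⟩
        exact hx ht
      rw [h3, measure_empty]
  refine (lintegral_mono h2).trans ?_
  rw [lintegral_indicator measurableSet_Ioo, setLIntegral_const, Real.volume_Ioo,
    ← ENNReal.ofReal_mul (by positivity)]
  refine ENNReal.ofReal_le_ofReal (le_of_eq ?_)
  ring

theorem strip' {φ : ℝ → ℝ} {u : ℂ} (hc : Continuous φ) (hu : ‖u‖ = 1) (z : ℂ) (r y : ℝ) (hr : 0 < r)
    (hy : 0 ≤ y) : volume {v : ℂ | v ∈ ball z r ∧ ht φ u v ≤ y} ≤ ENNReal.ofReal (4 * r * y) := by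
  let U : Circle := ⟨u, mem_sphere_zero_iff_norm.2 hu⟩
  have hrot : ∀ z, rotation U z = u * z := fun z => rotation_apply U z
  have hmp : MeasurePreserving (rotation U) (volume : Measure ℂ) volume :=
    (rotation U).measurePreserving
  have h1 : {v : ℂ | v ∈ ball z r ∧ ht φ u v ≤ y} =
      rotation U ⁻¹' {v : ℂ | v ∈ ball (u * z) r ∧ |v.im - φ v.re| ≤ y} := by
    ext v
    have h2 : dist (u * v) (u * z) = dist v z := by
      rw [dist_eq_norm, dist_eq_norm, ← mul_sub, norm_mul, hu, one_mul]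
    show (dist v z < r ∧ ht φ u v ≤ y) ↔
      (dist (rotation U v) (u * z) < r ∧ |(rotation U v).im - φ (rotation U v).re| ≤ y)
    rw [hrot, h2]
    rfl
  rw [h1, hmp.measure_preimage_emb (rotation U).toHomeomorph.measurableEmbedding]
  exact strip hc (u * z) r y hr hy

theorem tsum_count (x : ℝ) (hx : 0 ≤ x) :
    ∑' k : ℕ, (if (k : ℝ) ≤ x then (1 : ℝ≥0∞) else 0) ≤ ENNReal.ofReal (x + 1) := by
  rw [tsum_eq_sum (s := Finset.range (⌊x⌋₊ + 1))]
  · refine (Finset.sum_le_card_nsmul _ _ 1 (fun k _ => ?_)).trans ?_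
    · split_ifs <;> simp
    · rw [Finset.card_range, nsmul_eq_mul, mul_one, ← ENNReal.ofReal_natCast]
      refine ENNReal.ofReal_le_ofReal ?_
      push_cast
      have := Nat.floor_le hx
      linarith
  · intro k hk
    rw [Finset.mem_range, not_lt] at hk
    rw [if_neg]
    intro h
    have h1 : k ≤ ⌊x⌋₊ := Nat.le_floor h
    omega

/-- the level sets in one variable -/
theorem levels {H : ℝ → ℝ} (hm : Measurable H) (h0 : ∀ s, 0 ≤ H s)
    (hi : ∫⁻ s in Set.Ioc (0 : ℝ) 1, ENNReal.ofReal (H s + 1) < ⊤) :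
    ∑' k : ℕ, volume {s : ℝ | s ∈ Set.Ioc (0 : ℝ) 1 ∧ (k : ℝ) ≤ H s} < ⊤ := by
  have h1 : ∀ k : ℕ, volume {s : ℝ | s ∈ Set.Ioc (0 : ℝ) 1 ∧ (k : ℝ) ≤ H s} =
      ∫⁻ s in Set.Ioc (0 : ℝ) 1, (if (k : ℝ) ≤ H s then (1 : ℝ≥0∞) else 0) := by
    intro k
    have h2 : MeasurableSet {s : ℝ | (k : ℝ) ≤ H s} := measurableSet_le measurable_const hm
    have h3 : ∫⁻ s in Set.Ioc (0 : ℝ) 1, (if (k : ℝ) ≤ H s then (1 : ℝ≥0∞) else 0) =
        ∫⁻ s in Set.Ioc (0 : ℝ) 1, {s : ℝ | (k : ℝ) ≤ H s}.indicator 1 s := by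
      refine lintegral_congr fun s => ?_
      by_cases hs : (k : ℝ) ≤ H s
      · have h4 : s ∈ {s : ℝ | (k : ℝ) ≤ H s} := hs
        rw [if_pos hs, Set.indicator_of_mem h4]
        rfl
      · have h4 : s ∉ {s : ℝ | (k : ℝ) ≤ H s} := hs
        rw [if_neg hs, Set.indicator_of_notMem h4]
    rw [h3, lintegral_indicator_one h2, Measure.restrict_apply h2, Set.inter_comm]
    rfl
  have h2 : ∑' k : ℕ, volume {s : ℝ | s ∈ Set.Ioc (0 : ℝ) 1 ∧ (k : ℝ) ≤ H s} =
      ∫⁻ s in Set.Ioc (0 : ℝ) 1, ∑' k : ℕ, (if (k : ℝ) ≤ H s then (1 : ℝ≥0∞) else 0) := by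
    rw [lintegral_tsum]
    · exact tsum_congr h1
    · intro k
      exact (Measurable.ite (measurableSet_le measurable_const hm) measurable_const
        measurable_const).aemeasurable
  rw [h2]
  exact (lintegral_mono fun s => tsum_count (H s) (h0 s)).trans_lt hi

end GchAux

open GchAux in
/-- **P_gch.** -/
theorem p_gch : P_gch := by
  intro φ L α R u l E w hα hα1 hφ hEc hEne hu hR hE hw0 hw hwi
  have hα0 : 0 < α := by linarith
  have hL : 0 ≤ L := by
    have h := (abs_nonneg _).trans (hφ 0 1)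
    norm_num at h
    exact h
  have hc := cont hα0 hφ
  set p := 1 / α with hp
  have hp1 : 1 ≤ p := by rw [hp, le_div_iff₀ hα0]; linarith
  have hp2 : p < 2 := by rw [hp, div_lt_iff₀ hα0]; linarith
  have hp0 : 0 < p := by linarith
  have hpα : p * α = 1 := by rw [hp]; field_simp
  have hαp : α * p = 1 := by rw [mul_comm]; exact hpα
  obtain ⟨c, hcv⟩ : ∃ c : ℝ, c = 1 / (2 * (1 + L) ^ p) := ⟨_, rfl⟩
  have hL1 : (0 : ℝ) < (1 + L) ^ p := by positivity
  have hc0 : 0 < c := by rw [hcv]; positivity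
  obtain ⟨ρ, hρ⟩ : ∃ ρ : ℝ, ρ = min (R / 8) 1 := ⟨_, rfl⟩
  have hρ0 : 0 < ρ := by rw [hρ]; exact lt_min (by positivity) one_pos
  have hρ1 : ρ ≤ 1 := by rw [hρ]; exact min_le_right _ _
  have hρR : ρ ≤ R / 8 := by rw [hρ]; exact min_le_left _ _
  obtain ⟨r', hr'⟩ : ∃ r' : ℝ, r' = min (R / 4) 1 := ⟨_, rfl⟩
  have hr'0 : 0 < r' := by rw [hr']; exact lt_min (by positivity) one_pos
  have hr'1 : r' ≤ 1 := by rw [hr']; exact min_le_right _ _
  have hr'2 : r' ≤ R / 4 := by rw [hr']; exact min_le_left _ _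
  obtain ⟨c₃, hc₃⟩ : ∃ c₃ : ℝ, c₃ = min (min ((r' / (1 + L)) ^ p / 4) (ρ / 8))
    (min 1 ((1 / (2 * (1 + L))) ^ p)) := ⟨_, rfl⟩
  have hc₃0 : 0 < c₃ := by
    rw [hc₃]
    exact lt_min (lt_min (by positivity) (by positivity)) (lt_min one_pos (by positivity))
  have hc₃a : c₃ ≤ (r' / (1 + L)) ^ p / 4 := by
    rw [hc₃]; exact (min_le_left _ _).trans (min_le_left _ _)
  have hc₃b : c₃ ≤ ρ / 8 := by
    rw [hc₃]; exact (min_le_left _ _).trans (min_le_right _ _)
  have hc₃1 : c₃ ≤ 1 := by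
    rw [hc₃]; exact (min_le_right _ _).trans (min_le_left _ _)
  have hc₃d : c₃ ≤ (1 / (2 * (1 + L))) ^ p := by
    rw [hc₃]; exact (min_le_right _ _).trans (min_le_right _ _)
  have hc₃2 : (1 + L) * c₃ ^ α ≤ 1 / 2 := by
    have h1 : c₃ ^ α ≤ 1 / (2 * (1 + L)) := by
      calc c₃ ^ α ≤ ((1 / (2 * (1 + L))) ^ p) ^ α := Real.rpow_le_rpow hc₃0.le hc₃d hα0.le
        _ = 1 / (2 * (1 + L)) := by
          rw [← Real.rpow_mul (by positivity), hpα, Real.rpow_one]
    calc (1 + L) * c₃ ^ α ≤ (1 + L) * (1 / (2 * (1 + L))) :=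
          mul_le_mul_of_nonneg_left h1 (by positivity)
      _ = 1 / 2 := by field_simp
  have hht : ∀ z, 0 ≤ ht φ u z := fun z => abs_nonneg _
  have hmin : ∀ z : ℂ, 0 ≤ min 1 (ht φ u z) := fun z => le_min zero_le_one (hht z)
  have hmc : Continuous fun z : ℂ => min 1 (ht φ u z) := continuous_const.min (ht_cont hc)
  have hFm := Fn_meas (w := w) (c := c) (p := p) hw0 hw hc0 hp0
  -- the rotation
  let U : Circle := ⟨u, mem_sphere_zero_iff_norm.2 hu⟩
  have hrot : ∀ z, rotation U z = u * z := fun z => rotation_apply U z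
  have hmp : MeasurePreserving (rotation U) (volume : Measure ℂ) volume :=
    (rotation U).measurePreserving
  have hpos : ∀ z ∈ ball l ρ, z ∉ E → 0 < ht φ u z := by
    intro z hz hzE
    have hzR : z ∈ ball l R := ball_subset_ball (by linarith) hz
    exact abs_pos.2 fun h0 => hzE ((hE z hzR).2 (sub_eq_zero.1 h0))
  refine ⟨ρ, (2 : ℝ) ^ p, fun z => Fn w c p (min 1 (ht φ u z)),
    fun v => Fn w c p (min 1 (ht φ u v) / 2), fun z => c₃ * (min 1 (ht φ u z)) ^ p, hρ0, ?_,
    fun z => Fn_nonneg _, ?_, ?_, ?_⟩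
  · have h1 : volume (rotation U ⁻¹' (Gr φ)) = 0 := by
      rw [hmp.measure_preimage_emb (rotation U).toHomeomorph.measurableEmbedding]
      exact gr_null hc
    refine measure_mono_null ?_ h1
    rintro z ⟨hz1, hz2⟩
    have hzR : z ∈ ball l R := ball_subset_ball (by linarith) hz2
    show (rotation U z).im = φ (rotation U z).re
    rw [hrot]
    exact (hE z hzR).1 hz1
  · refine ⟨Real.one_le_rpow (by norm_num) hp0.le, (hmc.measurable.pow_const p).const_mul c₃,
      hFm.comp (hmc.measurable.div_const 2), fun v => Fn_nonneg _, ?_, ?_, ?_⟩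
    · intro z hz hzE
      have hh0 := hpos z hz hzE
      have hm0 : 0 < min 1 (ht φ u z) := lt_min one_pos hh0
      have hm1 : min 1 (ht φ u z) ≤ 1 := min_le_left _ _
      refine ⟨by positivity, ?_, ?_⟩
      · have ht0 : 0 < min (ht φ u z) (R / 4) := lt_min hh0 (by positivity)
        have hzl : ‖z - l‖ ≤ 3 * R / 8 := by
          rw [← dist_eq_norm]
          have := mem_ball.1 hz
          linarith
        have h1 := low hL hα0 hα1 hφ hEne hu hE hzl ht0.le (min_le_left _ _) (min_le_right _ _)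
        have h2 : r' * min 1 (ht φ u z) ≤ min (min (ht φ u z) (R / 4)) 1 := by
          have h3 : r' * min 1 (ht φ u z) ≤ min 1 (ht φ u z) := mul_le_of_le_one_left hm0.le hr'1
          have h4 : r' * min 1 (ht φ u z) ≤ r' := mul_le_of_le_one_right hr'0.le hm1
          exact le_min (le_min (h3.trans (min_le_right _ _)) (h4.trans hr'2)) (h4.trans hr'1)
        have h3 : (r' / (1 + L)) ^ p * (min 1 (ht φ u z)) ^ p ≤ infDist z E := by
          refine le_trans ?_ h1
          unfold dl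
          rw [← Real.mul_rpow (by positivity) hm0.le]
          refine Real.rpow_le_rpow (by positivity) ?_ hp0.le
          have h4 : r' / (1 + L) * min 1 (ht φ u z) = r' * min 1 (ht φ u z) / (1 + L) := by ring
          rw [h4]
          exact div_le_div_of_nonneg_right h2 (by positivity)
        have h4 : c₃ * (min 1 (ht φ u z)) ^ p ≤
            (r' / (1 + L)) ^ p / 4 * (min 1 (ht φ u z)) ^ p :=
          mul_le_mul_of_nonneg_right hc₃a (by positivity)
        show c₃ * (min 1 (ht φ u z)) ^ p ≤ infDist z E / 4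
        linarith
      · have h1 : (min 1 (ht φ u z)) ^ p ≤ 1 := Real.rpow_le_one hm0.le hm1 hp0.le
        show c₃ * (min 1 (ht φ u z)) ^ p ≤ ρ / 8
        have h2 : c₃ * (min 1 (ht φ u z)) ^ p ≤ c₃ := mul_le_of_le_one_right hc₃0.le h1
        linarith
    · intro z hz hzE v hv
      have hh0 := hpos z hz hzE
      have hm0 : 0 < min 1 (ht φ u z) := lt_min one_pos hh0
      obtain ⟨h1, h2, h3⟩ := ht_comp hL hα0 hα1 hpα hφ hu hc₃0 hc₃1 hc₃2 hh0 hv
      have hv0 : 0 < min 1 (ht φ u v) := lt_min one_pos h1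
      refine ⟨?_, ?_, ?_⟩
      · show c₃ * (min 1 (ht φ u v)) ^ p ≤ 2 ^ p * (c₃ * (min 1 (ht φ u z)) ^ p)
        have h4 : (min 1 (ht φ u v)) ^ p ≤ 2 ^ p * (min 1 (ht φ u z)) ^ p := by
          rw [← Real.mul_rpow (by norm_num) hm0.le]
          exact Real.rpow_le_rpow hv0.le h2 hp0.le
        calc c₃ * (min 1 (ht φ u v)) ^ p ≤ c₃ * (2 ^ p * (min 1 (ht φ u z)) ^ p) :=
              mul_le_mul_of_nonneg_left h4 hc₃0.le
          _ = _ := by ring
      · show c₃ * (min 1 (ht φ u z)) ^ p ≤ 2 ^ p * (c₃ * (min 1 (ht φ u v)) ^ p)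
        have h4 : (min 1 (ht φ u z)) ^ p ≤ 2 ^ p * (min 1 (ht φ u v)) ^ p := by
          rw [← Real.mul_rpow (by norm_num) hv0.le]
          exact Real.rpow_le_rpow hm0.le h3 hp0.le
        calc c₃ * (min 1 (ht φ u z)) ^ p ≤ c₃ * (2 ^ p * (min 1 (ht φ u v)) ^ p) :=
              mul_le_mul_of_nonneg_left h4 hc₃0.le
          _ = _ := by ring
      · exact Fn_anti hw0 hw hc0 hp0 (by positivity) (by linarith)
    · -- the integral
      have hbound : ∀ z, (Real.posLog (c₃ * (min 1 (ht φ u z)) ^ p)⁻¹) ^ (2 : ℝ) ≤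
          ((4 * p) ^ 2 * c₃ ^ (-(1 / (2 * p)))) * (min |(u * z).im - φ (u * z).re| 1) ^ (-(1 / 2 : ℝ)) := by
        intro z
        have hK : 0 ≤ ((4 * p) ^ 2 * c₃ ^ (-(1 / (2 * p)))) := by positivity
        have hmm : min |(u * z).im - φ (u * z).re| 1 = min 1 (ht φ u z) := min_comm _ _
        rw [hmm]
        rcases (hmin z).eq_or_lt with h0 | h0
        · rw [← h0, Real.zero_rpow hp0.ne', mul_zero, inv_zero, Real.posLog_zero,
            Real.zero_rpow (by norm_num)]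
          exact mul_nonneg hK (Real.rpow_nonneg le_rfl _)
        · have hx : 0 < c₃ * (min 1 (ht φ u z)) ^ p := by positivity
          have h1 : Real.posLog (c₃ * (min 1 (ht φ u z)) ^ p)⁻¹ ≤
              4 * p * ((c₃ * (min 1 (ht φ u z)) ^ p)⁻¹) ^ (1 / (4 * p)) := by
            have h2 := Real.log_le_rpow_div (inv_nonneg.2 hx.le) (by positivity : 0 < 1 / (4 * p))
            have h3 : ((c₃ * (min 1 (ht φ u z)) ^ p)⁻¹) ^ (1 / (4 * p)) / (1 / (4 * p)) =
                4 * p * ((c₃ * (min 1 (ht φ u z)) ^ p)⁻¹) ^ (1 / (4 * p)) := by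
              field_simp
            rw [h3] at h2
            exact max_le (by positivity) h2
          have h2 : (Real.posLog (c₃ * (min 1 (ht φ u z)) ^ p)⁻¹) ^ (2 : ℝ) ≤
              (4 * p * ((c₃ * (min 1 (ht φ u z)) ^ p)⁻¹) ^ (1 / (4 * p))) ^ (2 : ℝ) :=
            Real.rpow_le_rpow Real.posLog_nonneg h1 (by norm_num)
          refine h2.trans (le_of_eq ?_)
          rw [Real.mul_rpow (by positivity) (by positivity), ← Real.rpow_mul (by positivity),
            Real.inv_rpow hx.le, ← Real.rpow_neg hx.le, Real.mul_rpow hc₃0.le (by positivity),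
            ← Real.rpow_mul h0.le]
          have e1 : -(1 / (4 * p) * 2) = -(1 / (2 * p)) := by
            field_simp
            norm_num
          have e2 : p * -(1 / (2 * p)) = -(1 / 2) := by
            field_simp
          rw [e1, e2]
          have e3 : (4 * p) ^ (2 : ℝ) = (4 * p) ^ 2 := by
            rw [← Real.rpow_natCast]
            norm_num
          rw [e3]
          ring
      have hm : Measurable fun z : ℂ =>
          (Real.posLog (c₃ * (min 1 (ht φ u z)) ^ p)⁻¹) ^ (2 : ℝ) := by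
        refine Measurable.pow_const ?_ _
        exact Real.continuous_posLog.measurable.comp
          ((hmc.measurable.pow_const p).const_mul c₃).inv
      have hgi : IntegrableOn
          (fun z : ℂ => (min |(u * z).im - φ (u * z).re| 1) ^ (-(1 / 2 : ℝ))) (ball l ρ) := by
        have hgm : Measurable
            fun z : ℂ => (min |(u * z).im - φ (u * z).re| 1) ^ (-(1 / 2 : ℝ)) := by
          have h1 : Continuous fun z : ℂ => min (ht φ u z) 1 := (ht_cont hc).min continuous_const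
          exact h1.measurable.pow_const _
        refine ⟨hgm.aestronglyMeasurable, ?_⟩
        rw [hasFiniteIntegral_iff_ofReal (Filter.Eventually.of_forall fun z =>
          Real.rpow_nonneg (le_min (abs_nonneg _) zero_le_one) _)]
        have h1 := lint_lt_top hc (fun t => ENNReal.ofReal ((min |t| 1) ^ (-(1 / 2 : ℝ))))
          (((continuous_abs.measurable).min measurable_const).pow_const _).ennreal_ofReal
          (one_dim (by norm_num) (by norm_num)) (‖l‖ + ρ)
        rw [← hmp.setLIntegral_comp_preimage_emb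
          (rotation U).toHomeomorph.measurableEmbedding] at h1
        refine lt_of_le_of_lt ?_ h1
        refine (lintegral_mono_set ?_).trans (le_of_eq (lintegral_congr fun z => ?_))
        · intro z hz
          show rotation U z ∈ ball (0 : ℂ) (‖l‖ + ρ)
          rw [mem_ball, dist_eq_norm] at hz
          rw [hrot, mem_ball_zero_iff, norm_mul, hu, one_mul]
          calc ‖z‖ = ‖l + (z - l)‖ := by ring_nf
            _ ≤ ‖l‖ + ‖z - l‖ := norm_add_le _ _
            _ < ‖l‖ + ρ := by linarith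
        · show ENNReal.ofReal ((min |(u * z).im - φ (u * z).re| 1) ^ (-(1 / 2 : ℝ))) =
            ENNReal.ofReal ((min |(rotation U z).im - φ (rotation U z).re| 1) ^ (-(1 / 2 : ℝ)))
          rw [hrot]
      refine Integrable.mono' (hgi.const_mul ((4 * p) ^ 2 * c₃ ^ (-(1 / (2 * p)))))
        hm.aestronglyMeasurable (Filter.Eventually.of_forall fun z => ?_)
      rw [Real.norm_eq_abs, abs_of_nonneg (Real.rpow_nonneg Real.posLog_nonneg _)]
      exact hbound z
  · -- thin levels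
    intro c' hc'
    have hH0 : ∀ s, 0 ≤ c' * (1 + Fn w c p (s / 2)) := fun s => by
      have := Fn_nonneg (w := w) (c := c) (p := p) (s / 2)
      positivity
    have hHm : Measurable fun s : ℝ => c' * (1 + Fn w c p (s / 2)) :=
      ((hFm.comp (measurable_id.div_const 2)).const_add 1).const_mul c'
    have hwi' : IntegrableOn (fun t : ℝ => w (c * t ^ p) * t ^ (1 - p)) (Set.Ioc 0 1) := hwi c hc0
    have hFi := Fe_int hw0 hw hc0 hp0 hp2 hwi'
    have hi : ∫⁻ s in Set.Ioc (0 : ℝ) 1,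
        ENNReal.ofReal (c' * (1 + Fn w c p (s / 2)) + 1) < ⊤ := by
      have h1 : ∫⁻ s in Set.Ioc (0 : ℝ) 1, ENNReal.ofReal (c' * (1 + Fn w c p (s / 2)) + 1) ≤
          ∫⁻ s in Set.Ioc (0 : ℝ) 1, (ENNReal.ofReal (c' + 1) +
            ENNReal.ofReal c' * Fe w c p (s / 2)) := by
        refine setLIntegral_mono' measurableSet_Ioc fun s hs => ?_
        have h2 : c' * (1 + Fn w c p (s / 2)) + 1 = (c' + 1) + c' * Fn w c p (s / 2) := by ring
        rw [h2, ENNReal.ofReal_add (by positivity) (mul_nonneg hc'.le (Fn_nonneg _)),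
          ENNReal.ofReal_mul hc'.le, Fn_pos_eq (by linarith [hs.1] : 0 < s / 2)]
        gcongr
        exact ENNReal.ofReal_toReal_le
      refine h1.trans_lt ?_
      rw [lintegral_add_left measurable_const, setLIntegral_const,
        lintegral_const_mul' _ _ ENNReal.ofReal_ne_top, Real.volume_Ioc]
      exact ENNReal.add_lt_top.2 ⟨ENNReal.mul_lt_top ENNReal.ofReal_lt_top ENNReal.ofReal_lt_top,
        ENNReal.mul_lt_top ENNReal.ofReal_lt_top hFi⟩
    have hsum := levels hHm hH0 hi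
    set A : ℕ → Set ℝ := fun k =>
      {s : ℝ | s ∈ Set.Ioc (0 : ℝ) 1 ∧ (k : ℝ) ≤ c' * (1 + Fn w c p (s / 2))} with hA
    have hAfin : ∀ k, volume (A k) ≠ ⊤ := fun k => by
      have h1 : volume (A k) ≤ volume (Set.Ioc (0 : ℝ) 1) := measure_mono fun s hs => hs.1
      rw [Real.volume_Ioc] at h1
      exact (h1.trans_lt ENNReal.ofReal_lt_top).ne
    refine ⟨fun k => 32 * (volume (A k)).toReal, fun k => by positivity,
      (ENNReal.summable_toReal hsum.ne).mul_left 32, ?_⟩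
    intro k z ρ' hr hρ'
    set y := (volume (A k)).toReal with hy
    have hy0 : 0 ≤ y := ENNReal.toReal_nonneg
    rcases lt_or_ge y 1 with hy1 | hy1
    · have hsub : {v : ℂ | v ∈ ball z ρ' ∧ v ∈ ball l ρ ∧
          (k : ℝ) ≤ c' * (1 + Fn w c p (min 1 (ht φ u v) / 2))} ⊆
          {v : ℂ | v ∈ ball z ρ' ∧ ht φ u v ≤ y} := by
        rintro v ⟨hv1, -, hv3⟩
        refine ⟨hv1, ?_⟩
        rcases (hht v).eq_or_lt with h0 | h0
        · rw [← h0]
          exact hy0
        · set m := min 1 (ht φ u v) with hm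
          have hm0 : 0 < m := lt_min one_pos h0
          have hm1 : m ≤ 1 := min_le_left _ _
          have h1 : Set.Ioc 0 m ⊆ A k := by
            intro s hs
            refine ⟨⟨hs.1, hs.2.trans hm1⟩, hv3.trans ?_⟩
            refine mul_le_mul_of_nonneg_left ?_ hc'.le
            have := Fn_anti (w := w) (c := c) (p := p) hw0 hw hc0 hp0
              (by linarith [hs.1] : 0 < s / 2) (by linarith [hs.2] : s / 2 ≤ m / 2)
            linarith
          have h2 : ENNReal.ofReal m ≤ volume (A k) := by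
            have h3 := measure_mono (μ := (volume : Measure ℝ)) h1
            rwa [Real.volume_Ioc, sub_zero] at h3
          have h3 : m ≤ y := (ENNReal.ofReal_le_iff_le_toReal (hAfin k)).1 h2
          rcases le_total 1 (ht φ u v) with h4 | h4
          · have h5 : m = 1 := min_eq_left h4
            linarith
          · have h5 : m = ht φ u v := min_eq_right h4
            linarith
      refine (measure_mono hsub).trans ((strip' hc hu z ρ' y hρ' hy0).trans ?_)
      refine ENNReal.ofReal_le_ofReal ?_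
      have hr2 : 32 * y ≤ ρ' := hr
      nlinarith
    · have hr2 : 32 * y ≤ ρ' := hr
      have hsub : {v : ℂ | v ∈ ball z ρ' ∧ v ∈ ball l ρ ∧
          (k : ℝ) ≤ c' * (1 + Fn w c p (min 1 (ht φ u v) / 2))} ⊆ ball l ρ := fun v hv => hv.2.1
      refine (measure_mono hsub).trans ?_
      rw [Complex.volume_ball]
      have h1 : (NNReal.pi : ℝ≥0∞) = ENNReal.ofReal π := by
        rw [← NNReal.coe_real_pi, ENNReal.ofReal_coe_nnreal]
      rw [h1, ← ENNReal.ofReal_pow hρ0.le, ← ENNReal.ofReal_mul (by positivity)]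
      refine ENNReal.ofReal_le_ofReal ?_
      have h2 : π ≤ 4 := Real.pi_le_four
      have h3 : ρ ^ 2 ≤ 1 := pow_le_one₀ hρ0.le hρ1
      have h4 : ρ ^ 2 * π ≤ 1 * 4 := mul_le_mul h3 h2 Real.pi_pos.le (by norm_num)
      nlinarith
  · obtain ⟨B, C, hB, hC⟩ := chainsW (c := c) hw0 hw hL hα0 hα1 hcv hφ hEc hEne hu hR hE
    exact ⟨B, C, hB, fun z hz hzE => hC z (ball_subset_ball hρR hz) hzE⟩

end Pool.Agent.H650.EP
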